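import Mathlib

namespace Pool.Agent.H.MP_a27c8d_co

open Polynomial

/-- parallel class of an element of the dual matroid -/
def cl (a : ℕ) : ℕ := if a < 4 then a else (a - 4) / 3 + 4

/-- bases of the non-Fano plane on the points `0, …, 6` -/
def g7 (p q r : ℕ) : Bool :=
  p != q && p != r && q != r &&
    ([19, 28, 37, 42, 73, 70].all fun m => m != 2 ^ p + 2 ^ q + 2 ^ r)

/-- bases of the dual matroid -/
def g (a b c : Fin 13) : Bool := g7 (cl a) (cl b) (cl c)

lemma cl_lt (a : Fin 13) : cl a < 7 := by revert a; decide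

lemma ex7' : ((List.range 7).all fun p => (List.range 7).all fun q => (List.range 7).all fun r =>
    !g7 p q r || (List.range 7).all fun s => (List.range 7).all fun t => (List.range 7).all fun u =>
    !g7 s t u || ((p != t && p != u && g7 s q r) || (q != t && q != u && g7 p s r) ||
      (r != t && r != u && g7 p q s))) = true := by decide +kernel

lemma ex7 : ∀ p < 7, ∀ q < 7, ∀ r < 7, g7 p q r = true → ∀ s < 7, ∀ t < 7, ∀ u < 7,
    g7 s t u = true → (p ≠ t ∧ p ≠ u ∧ g7 s q r = true) ∨ (q ≠ t ∧ q ≠ u ∧ g7 p s r = true) ∨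
      (r ≠ t ∧ r ≠ u ∧ g7 p q s = true) := by
  intro p hp q hq r hr h1 s hs t ht u hu h2
  have := ex7'
  simp only [List.all_eq_true, List.mem_range, Bool.or_eq_true, Bool.not_eq_true',
    Bool.and_eq_true, bne_iff_ne] at this
  have a := (this p hp q hq r hr).resolve_left (by simp [h1])
  have b := (a s hs t ht u hu).resolve_left (by simp [h2])
  tauto

set_option synthInstance.maxSize 2000 in
lemma sym7 : ∀ p < 7, ∀ q < 7, ∀ r < 7, g7 p q r = true →
    g7 q p r = true ∧ g7 r q p = true ∧ p ≠ q ∧ p ≠ r ∧ q ≠ r := by decide +kernel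

lemma g_ne {a b c : Fin 13} (h : g a b c = true) : a ≠ b ∧ a ≠ c ∧ b ≠ c := by
  obtain ⟨-, -, h1, h2, h3⟩ := sym7 _ (cl_lt a) _ (cl_lt b) _ (cl_lt c) h
  exact ⟨fun e => h1 (by rw [e]), fun e => h2 (by rw [e]), fun e => h3 (by rw [e])⟩

/-- bases -/
def Bs (B : Set (Fin 13)) : Prop := ∃ a b c, g a b c = true ∧ B = {a, b, c}ᶜ

lemma ex1 {a b c d e f : Fin 13} (h1 : g a b c = true) (h2 : g d e f = true)
    (hd : d ∈ ({a, b, c} : Set (Fin 13))ᶜ) :
    ∃ y ∈ ({d, e, f} : Set (Fin 13))ᶜ \ {a, b, c}ᶜ,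
      Bs (insert y (({a, b, c} : Set (Fin 13))ᶜ \ {d})) := by
  have n1 := g_ne h1
  simp only [Set.mem_compl_iff, Set.mem_insert_iff, Set.mem_singleton_iff, not_or] at hd
  rcases ex7 _ (cl_lt a) _ (cl_lt b) _ (cl_lt c) h1 _ (cl_lt d) _ (cl_lt e) _ (cl_lt f) h2 with
    ⟨u1, u2, u3⟩ | ⟨u1, u2, u3⟩ | ⟨u1, u2, u3⟩
  · have v1 : a ≠ e := fun x => u1 (by rw [x])
    have v2 : a ≠ f := fun x => u2 (by rw [x])
    refine ⟨a, by simp; grind, d, b, c, u3, ?_⟩
    ext x; simp; grind
  · have v1 : b ≠ e := fun x => u1 (by rw [x])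
    have v2 : b ≠ f := fun x => u2 (by rw [x])
    refine ⟨b, by simp; grind, a, d, c, u3, ?_⟩
    ext x; simp; grind
  · have v1 : c ≠ e := fun x => u1 (by rw [x])
    have v2 : c ≠ f := fun x => u2 (by rw [x])
    refine ⟨c, by simp; grind, a, b, d, u3, ?_⟩
    ext x; simp; grind

lemma exch : Matroid.ExchangeProperty Bs := by
  rintro _ _ ⟨a, b, c, h1, rfl⟩ ⟨d, e, f, h2, rfl⟩ x ⟨hx1, hx2⟩
  obtain ⟨s1, s2, -⟩ := sym7 _ (cl_lt d) _ (cl_lt e) _ (cl_lt f) h2
  simp only [Set.mem_compl_iff, not_not, Set.mem_insert_iff, Set.mem_singleton_iff] at hx2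
  rcases hx2 with rfl | rfl | rfl
  · exact ex1 h1 h2 hx1
  · have : ({d, x, f} : Set (Fin 13)) = {x, d, f} := Set.insert_comm _ _ _
    rw [this]
    exact ex1 h1 s1 hx1
  · have : ({d, e, x} : Set (Fin 13)) = {x, e, d} := by ext; simp; grind
    rw [this]
    exact ex1 h1 s2 hx1

/-- the matroid -/
def MM : Matroid (Fin 13) :=
  Matroid.ofIsBaseOfFinite Set.finite_univ Bs ⟨_, 0, 1, 2, by decide, rfl⟩ exch
    (fun _ _ => Set.subset_univ _)

lemma MM_indep (I : Set (Fin 13)) :
    MM.Indep I ↔ ∃ a, a ∉ I ∧ ∃ b, b ∉ I ∧ ∃ c, c ∉ I ∧ g a b c = true := by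
  rw [Matroid.indep_iff]
  constructor
  · rintro ⟨_, ⟨a, b, c, h, rfl⟩, hI⟩
    exact ⟨a, fun x => hI x (by simp), b, fun x => hI x (by simp), c, fun x => hI x (by simp), h⟩
  · rintro ⟨a, h1, b, h2, c, h3, h⟩
    refine ⟨_, ⟨a, b, c, h, rfl⟩, fun x hx => ?_⟩
    rintro (rfl | rfl | rfl) <;> contradiction

lemma MM_rank : MM.eRank = 10 := by
  have h : MM.IsBase ({0, 1, 2} : Set (Fin 13))ᶜ := ⟨0, 1, 2, by decide, rfl⟩
  rw [← h.encard_eq_eRank]
  have : ({0, 1, 2} : Set (Fin 13))ᶜ = ((({0, 1, 2} : Finset (Fin 13))ᶜ : Finset (Fin 13)) : Set _) := by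
    rw [Finset.coe_compl]; simp
  rw [this, Set.encard_coe_eq_coe_finsetCard]
  rfl

/-- the set coded by a number -/
def S (n : ℕ) : Finset (Fin 13) := Finset.univ.filter fun i => n.testBit i

/-- size -/
def pc (n : ℕ) : ℕ := ((Finset.range 13).filter fun i => n.testBit i).card

/-- fast independence test -/
def Q (n : ℕ) : Bool :=
  (List.range 13).any fun a => !n.testBit a && (List.range 13).any fun b => !n.testBit b &&
    (List.range 13).any fun c => !n.testBit c && g7 (cl a) (cl b) (cl c)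

lemma S_card (n : ℕ) : (S n).card = pc n := by
  unfold S pc
  rw [Finset.card_filter, Fin.sum_univ_eq_sum_range (fun i => if n.testBit i then 1 else 0) 13,
    ← Finset.card_filter]

lemma S_indep (n : ℕ) : MM.Indep (S n) ↔ Q n = true := by
  rw [MM_indep]
  simp only [S, Q, Finset.coe_filter, Finset.mem_univ, true_and, Set.mem_setOf_eq,
    List.any_eq_true, List.mem_range, Bool.and_eq_true, Bool.not_eq_true', Bool.not_eq_true]
  constructor
  · rintro ⟨a, h1, b, h2, c, h3, h⟩
    exact ⟨a, a.2, h1, b, b.2, h2, c, c.2, h3, h⟩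
  · rintro ⟨a, a2, h1, b, b2, h2, c, c2, h3, h⟩
    exact ⟨⟨a, a2⟩, h1, ⟨b, b2⟩, h2, ⟨c, c2⟩, h3, h⟩

lemma S_inj : Set.InjOn S (Finset.range 8192) := by
  intro m hm n hn h
  simp only [Finset.coe_range, Set.mem_Iio] at hm hn
  refine Nat.eq_of_testBit_eq fun i => ?_
  rcases Nat.lt_or_ge i 13 with hi | hi
  · have : (⟨i, hi⟩ : Fin 13) ∈ S m ↔ (⟨i, hi⟩ : Fin 13) ∈ S n := by rw [h]
    simpa [S] using this
  · have : 2 ^ 13 ≤ 2 ^ i := Nat.pow_le_pow_right (by norm_num) hi
    rw [Nat.testBit_lt_two_pow (by omega), Nat.testBit_lt_two_pow (by omega)]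

lemma S_surj (X : Finset (Fin 13)) : ∃ n < 8192, S n = X := by
  have h : (Finset.range 8192).image S = Finset.univ := by
    apply Finset.eq_univ_of_card
    rw [Finset.card_image_of_injOn S_inj]
    simp
  have : X ∈ (Finset.range 8192).image S := by rw [h]; simp
  simpa using this

lemma cnt (k : ℕ) : {I : Set (Fin 13) | MM.Indep I ∧ I.ncard = k}.ncard =
    ((Finset.range 8192).filter fun n => Q n = true ∧ pc n = k).card := by
  have e : {I : Set (Fin 13) | MM.Indep I ∧ I.ncard = k} =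
      (fun n => (S n : Set (Fin 13))) ''
        ((Finset.range 8192).filter fun n => Q n = true ∧ pc n = k) := by
    ext I
    constructor
    · rintro ⟨h1, h2⟩
      obtain ⟨X, rfl⟩ := I.toFinite.exists_finset_coe
      obtain ⟨n, hn, rfl⟩ := S_surj X
      rw [Set.ncard_coe_finset, S_card] at h2
      exact ⟨n, by simp [hn, h2, (S_indep n).1 h1], rfl⟩
    · rintro ⟨n, hn, rfl⟩
      simp only [Finset.coe_filter, Set.mem_setOf_eq] at hn
      exact ⟨(S_indep n).2 hn.2.1, by rw [Set.ncard_coe_finset, S_card, hn.2.2]⟩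
  rw [e, Set.InjOn.ncard_image, Set.ncard_coe_finset]
  intro m hm n hn h
  simp only [Finset.coe_filter, Set.mem_setOf_eq] at hm hn
  exact S_inj (by simpa using hm.1) (by simpa using hn.1) (Finset.coe_injective h)

/-- the numbers of independent sets -/
def ff (k : ℕ) : ℕ := [1, 13, 78, 286, 715, 1287, 1716, 1713, 1263, 640, 175].getD k 0

/-- table of independent sets -/
def TB : ℕ := 0x1170777077707770777077707770777135f7fff7fff7fff7fff7fff7fff7fff135f7fff7fff7fff7fff7fff7fff7fff135f7fff7fff7fff7fff7fff7fff7fff135f7fff7fff7fff7fff7fff7fff7fff135f7fff7fff7fff7fff7fff7fff7fff135f7fff7fff7fff7fff7fff7fff7fff135f7fff7fff7fff7fff7fff7fff7fff153f7fff7fff7fff7fff7fff7fff7fff7fffffffffffffffffffffffffffffff7fffffffffffffffffffffffffffffff7fffffffffffffffffffffffffffffff7fffffffffffffffffffffffffffffff7fffffffffffffffffffffffffffffff7fffffffffffffffffffffffffffffff7fffffffffffffffffffffffffffffff153f7fff7fff7fff7fff7fff7fff7fff7fffffffffffffffffffffffffffffff7ffffffffff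fffffffffffffffffffff7fffffffffffffffffffffffffffffff7fffffffffffffffffffffffffffffff7fffffffffffffffffffffffffffffff7fffffffffffffffffffffffffffffff7fffffffffffffffffffffffffffffff153f7fff7fff7fff7fff7fff7fff7fff7fffffffffffffffffffffffffffffff7fffffffffffffffffffffffffffffff7fffffffffffffffffffffffffffffff7fffffffffffffffffffffffffffffff7fffffffffffffffffffffffffffffff7fffffffffffffffffffffffffffffff7fffffffffffffffffffffffffffffff153f7fff7fff7fff7fff7fff7fff7fff7fffffffffffffffffffffffffffffff7fffffffffffffffffffffffffffffff7fffffffffffffffffffffffffffffff7fffffffffffffffffffffffffffffff7fffffffffffffffffffffffffffffff7fffffffffffffffffffffffffffffff7fffffffffffffffffffffffffffffff153f7fff7fff7fff7fff7fff7fff7fff7fffffffffffffffffffffffffffffff7fffffffffffffffffffffffffffffff7fffffffffffffffffffffffffffffff7fffffffffffffffffffffffffffffff7fffffffffffffffffffffffffffffff7fffffffffffffffffffffffffffffff7fffffffffffffffffffffffffffffff153f7fff7fff7fff7fff7fff7fff7fff7fffffffffffffffffffffffffffffff7fffffffffffffffffffffffffffffff7fffffffffffffffffffffffffffffff7fffffffffffffffffffffffffffffff7fffffffffffffffffffffffffffffff7fffffffffffffffffffffffffffffff7fffffffffffffffffffffffffffffff153f7fff7fff7fff7fff7fff7fff7fff7fffffffffffffffffffffffffffffff7fffffffffffffffffffffffffffffff7fffffffffffffffffffffffffffffff7fffffffffffffffffffffffffffffff7fffffffffffffffffffffffffffffff7fffffffffffffffffffffffffffffff7fffffffffffffffffffffffffffffff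

lemma tb : ((List.range 8192).all fun n => Q n == TB.testBit n) = true := by decide +kernel

lemma tally : ∀ k < 11, ((Finset.range 8192).filter fun n => TB.testBit n = true ∧ pc n = k).card =
    ff k := by decide +kernel

end Pool.Agent.H.MP_a27c8d_co
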