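import Mathlib

namespace Pool.Agent.H.MP_a27c8d_co

open Polynomial

/-- the H-polynomial -/
noncomputable def HP : ℂ[X] := C 9 * X ^ 10 + C 19 * X ^ 9 + C 30 * X ^ 8 + C 33 * X ^ 7 +
  C 28 * X ^ 6 + C 21 * X ^ 5 + C 15 * X ^ 4 + C 10 * X ^ 3 + C 6 * X ^ 2 + C 3 * X + C 1

lemma prod_ge (w : ℂ) (c : ℝ) (hc : 0 ≤ c) (s : Multiset ℂ) (h : ∀ z ∈ s, c ≤ ‖w - z‖) :
    c ^ s.card ≤ ‖(s.map (w - ·)).prod‖ := by
  induction s using Multiset.induction_on with
  | empty => simp
  | cons a s ih =>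
    rw [Multiset.map_cons, Multiset.prod_cons, norm_mul, Multiset.card_cons, pow_succ']
    exact mul_le_mul (h a (by simp)) (ih fun z hz => h z (by simp [hz])) (by positivity)
      (norm_nonneg _)

lemma root : ∃ z : ℂ, 1 < ‖z‖ ∧ HP.eval z = 0 := by
  by_contra h
  push Not at h
  have hd : HP.natDegree = 10 := by unfold HP; compute_degree!
  have hl : HP.leadingCoeff = 9 := by
    rw [leadingCoeff, hd]; unfold HP; simp [coeff_one]
  have hs : HP.Splits := IsAlgClosed.splits _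
  have h0 : HP ≠ 0 := by rintro e; rw [e] at hd; simp at hd
  obtain ⟨w, hw⟩ : ∃ w : ℂ, w = ⟨-216562067332643502305537 / 10 ^ 24,
    988623923741475425649141 / 10 ^ 24⟩ := ⟨_, rfl⟩
  have w1 : 1.01 ≤ ‖w‖ := by
    refine le_of_sq_le_sq ?_ (norm_nonneg _)
    rw [Complex.sq_norm, hw, Complex.normSq_mk]
    norm_num
  have a := prod_ge w 0.01 (by norm_num) HP.roots fun z hz => by
    have h1 : ‖z‖ ≤ 1 := not_lt.1 fun c => h z c ((mem_roots h0).1 hz)
    have h2 := norm_sub_norm_le w z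
    linarith
  rw [← hs.natDegree_eq_card_roots, hd] at a
  have b := hs.eval_eq_prod_roots w
  rw [hl] at b
  have c : ‖HP.eval w‖ ≤ 1 / 10 ^ 22 := by
    have e : HP.eval w = (((((((((9 * w + 19) * w + 30) * w + 33) * w + 28) * w + 21) * w + 15)
        * w + 10) * w + 6) * w + 3) * w + 1 := by
      unfold HP; simp; ring
    refine (Complex.norm_le_abs_re_add_abs_im _).trans ?_
    rw [e, hw]
    simp only [Complex.add_re, Complex.add_im, Complex.mul_re, Complex.mul_im, Complex.re_ofNat,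
      Complex.im_ofNat, Complex.one_re, Complex.one_im]
    norm_num [abs_of_pos]
  rw [b, norm_mul] at c
  have : ‖(9 : ℂ)‖ = 9 := by simp
  rw [this] at c
  norm_num at a
  linarith

end Pool.Agent.H.MP_a27c8d_co
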