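import Pool.Agent.H.MP_a27c8d_co.A

namespace Pool.Agent.H.MP_a27c8d_co

lemma cnt' (k : ℕ) (hk : k < 11) : {I : Set (Fin 13) | MM.Indep I ∧ I.ncard = k}.ncard = ff k := by
  refine (cnt k).trans (Eq.trans ?_ (tally k hk))
  refine congrArg Finset.card (Finset.filter_congr fun n hn => ?_)
  have := List.all_eq_true.1 tb n (List.mem_range.2 (Finset.mem_range.1 hn))
  rw [beq_iff_eq.1 this]

end Pool.Agent.H.MP_a27c8d_co
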